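import Pool.Agent.Helper82.Min.Defs
import Pool.Agent.Helper82.Min.Conv
import Pool.Agent.Helper82.Final

/-!
# Hyperbolic 3-manifolds with rank-one cusps and no minimal surface of finite area

All definitions used in the statement are in `Pool/Agent/Helper82/Min/Defs.lean`.
-/

namespace Pool.Agent.Results.MP_1edc9b_gt.NoFiniteArea

open Pool.Agent.Helper82 Pool.Agent.Helper82.Min

/-- For every nonempty countable `ι` there is a discrete torsion-free group `Γ` of isometries of
hyperbolic 3-space, free of rank `|ι|`, with a rank-one cusp, such that the hyperbolic 3-manifold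
`H³/Γ` contains no properly embedded minimal surface of finite area. -/
theorem result (ι : Type) [Nonempty ι] [Countable ι] :
    ∃ Γ : Grp, (∀ γ ∈ Γ, IsIsom γ) ∧ Min.IsDiscrete Γ ∧ Min.IsTorsionFree Γ ∧
      Nonempty (Γ ≃* FreeGroup ι) ∧ Min.HasRankOneCusp Γ ∧
      ¬ ∃ S : Set (Min.Mfd Γ), Min.IsMinimalSurface Γ S ∧ Min.area Γ S < ⊤ := by
  obtain ⟨f, hf⟩ := exists_injective_nat ι
  have hn : Function.Injective (fun i => (f i : ℤ)) := fun i j h => hf (by simpa using h)
  refine ⟨GG _, (le_HIsom_iff _).1 (GG_le_HIsom _), (isDiscrete_iff _).2 (GG_discrete _ hn),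
    (isTorsionFree_iff _).2 (GG_torsionFree _ hn), nonempty_equiv _ hn,
    (hasRankOneCusp_iff _).2 (GG_cusp _ hn (Classical.arbitrary ι)), ?_⟩
  rintro ⟨S, hS, ha⟩
  rw [area_eq _ hS.2.1] at ha
  exact ha.ne (GG_area _ hn S ((isMinimalSurface_iff _ S).1 hS))

end Pool.Agent.Results.MP_1edc9b_gt.NoFiniteArea
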